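import Mathlib
import Pool.Agent.Helper36.TropLower

set_option autoImplicit false

namespace Pool.Agent.Results.MP_0ed883_ag.NotTropicalBasis

open Pool.Agent.Helper36.Trop

/-- For every `n ≥ 8` (in particular for `n = 8, 9, 10, 11, 12`) the `4 × 4` minors of the symmetric
`n × n` matrix of indeterminates do not form a tropical basis: there is a `0/1` weight vector lying
in the tropical hypersurface of every minor but not in the tropical variety of the ideal which the
minors generate. -/
theorem result : ∀ n : ℕ, 8 ≤ n → ∃ w : Sym2 (Fin n) → ℝ, (∀ e, w e = 0 ∨ w e = 1) ∧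
    w ∈ ⋂ f ∈ minors n, tropHyp f ∧ w ∉ ⋂ f ∈ minorIdeal n, tropHyp f := by
  intro n hn
  refine ⟨wR, fun e => ?_, ?_, ?_⟩
  · rcases wN_le e with h | h
    · left; simp [wR, h]
    · right; simp [wR, h]
  · exact Set.mem_iInter₂.2 fun f hf => wR_mem_trop f hf
  · intro hmem
    obtain ⟨f, hf, hw⟩ := exists_lower hn
    exact hw (Set.mem_iInter₂.1 hmem f hf)

end Pool.Agent.Results.MP_0ed883_ag.NotTropicalBasis
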